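import Pool.Agent.Run7.h642.UD.Shap
import Pool.Agent.Run7.h759.UM.Gen
import Pool.Agent.Run7.h759.UD.IfaceD

/-!
# Piece U3: the relative form from coefficients
-/

set_option autoImplicit false

namespace Pool.Agent.Run7.h642.UD

open Subgroup Pool.Agent.W5h77.MB Pool.Agent.Run7.h759.UM
open Pool.Agent.Q60.MU hiding Qb
open Pool.Agent.Run7.h759.UD IntermediateField
open scoped Pointwise

/-- functions of sum zero -/
def Z (Q : Type) [Fintype Q] (p : ℕ) : AddSubgroup (Q → ZMod p) where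
  carrier := {a | ∑ x, a x = 0}
  zero_mem' := by
    show ∑ x : Q, (0 : Q → ZMod p) x = 0
    simp
  add_mem' := by
    intro a b ha hb
    show ∑ x : Q, (a + b) x = 0
    have ha' : ∑ x : Q, a x = 0 := ha
    have hb' : ∑ x : Q, b x = 0 := hb
    simp only [Pi.add_apply, Finset.sum_add_distrib, ha', hb', add_zero]
  neg_mem' := by
    intro a ha
    show ∑ x : Q, (-a) x = 0
    have ha' : ∑ x : Q, a x = 0 := ha
    simp only [Pi.neg_apply, Finset.sum_neg_distrib, ha', neg_zero]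

/-- translation of functions -/
def act {Q : Type} [Group Q] [Fintype Q] (p : ℕ) (y : Q) (a : Z Q p) : Z Q p :=
  ⟨fun x => a.1 (x * y), by
    show ∑ x : Q, a.1 (x * y) = 0
    have h1 : ∑ x : Q, a.1 x = 0 := a.2
    rw [← h1]
    exact Equiv.sum_comp (Equiv.mulRight y) a.1⟩

theorem act_one {Q : Type} [Group Q] [Fintype Q] (p : ℕ) (a : Z Q p) : act p 1 a = a := by
  apply Subtype.ext
  funext x
  show a.1 (x * 1) = a.1 x
  rw [mul_one]

theorem step_core {p : ℕ} [hp : Fact p.Prime] {T : ValuationSubring Qb → Gal(Qb/ℚ) → Prop}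
    {ℓ : ℕ} {M N : Fld} (hℓ : ℓ.Prime) (hℓp : ℓ ≠ p) (hN : IsNF N) (hMN : Sub M N)
    (hloc : ∀ w σ, T w σ → Fixes σ M → Fixes σ N)
    {Q : Type} [Group Q] [Fintype Q] (hQ : Nat.card Q = ℓ) (q : Gal(Qb/ℚ) → Q)
    (hq : ∀ σ ∈ M.fixingSubgroup, ∀ τ ∈ M.fixingSubgroup, q (σ * τ) = q σ * q τ)
    (hqK : ∀ σ ∈ M.fixingSubgroup, (q σ = 1 ↔ σ ∈ N.fixingSubgroup))
    (hqs : ∀ x, ∃ g ∈ M.fixingSubgroup, q g = x)
    (hsha : ∀ (A : Type) [AddCommGroup A] (ρ : Gal(Qb/ℚ) → A → A), IsStepCoef p M N A ρ →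
      ShaBounded p T M A ρ) : RelMuNull p T M N := by
  classical
  have hNM : N.fixingSubgroup ≤ M.fixingSubgroup := fixingSubgroup_le hMN
  have hq1 : q 1 = 1 := (hqK 1 (one_mem _)).2 (one_mem _)
  have hqN : ∀ σ ∈ N.fixingSubgroup, q σ = 1 := fun σ hσ => (hqK σ (hNM hσ)).2 hσ
  have hZf : Finite (Z Q p) := by
    have : Finite (Q → ZMod p) := inferInstance
    exact Subtype.finite
  have hcoef : IsStepCoef p M N (Z Q p) (fun σ a => act p (q σ) a) := by
    refine ⟨⟨hZf, ?_, ?_, ?_, ?_, ?_⟩, ?_, ?_⟩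
    · intro a
      apply Subtype.ext
      funext x
      show (p • a.1) x = 0
      rw [Pi.smul_apply, nsmul_eq_mul, CharP.cast_eq_zero, zero_mul]
    · intro a
      show act p (q 1) a = a
      rw [hq1, act_one]
    · intro σ _ a b
      rfl
    · intro σ τ hσ hτ a
      apply Subtype.ext
      funext x
      show a.1 (x * q (σ * τ)) = a.1 (x * q σ * q τ)
      rw [hq σ (fixes_iff.1 hσ) τ (fixes_iff.1 hτ), mul_assoc]
    · refine ⟨N, hN, hMN, fun σ hσ a => ?_⟩
      show act p (q σ) a = a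
      rw [hqN σ (fixes_iff.1 hσ), act_one]
    · intro σ hσ a
      show act p (q σ) a = a
      rw [hqN σ (fixes_iff.1 hσ), act_one]
    · intro a ha
      have h1 : ∀ x, a.1 x = a.1 1 := by
        intro x
        obtain ⟨g, hg, hgx⟩ := hqs x
        have h2 := congrArg (fun b : Z Q p => b.1 1) (ha g (fixes_iff.2 hg))
        have h3 : a.1 (1 * q g) = a.1 1 := h2
        rw [one_mul, hgx] at h3
        exact h3
      have h4 : ∑ x : Q, a.1 x = 0 := a.2
      rw [Finset.sum_congr rfl fun x _ => h1 x, Finset.sum_const, Finset.card_univ,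
        ← Nat.card_eq_fintype_card, hQ, nsmul_eq_mul] at h4
      have h5 : (ℓ : ZMod p) ≠ 0 := by
        intro h0
        rw [ZMod.natCast_eq_zero_iff] at h0
        exact hℓp ((Nat.prime_dvd_prime_iff_eq hp.out hℓ).1 h0).symm
      have h6 : a.1 1 = 0 := (mul_eq_zero.1 h4).resolve_left h5
      apply Subtype.ext
      funext x
      rw [h1 x, h6]
      rfl
  obtain ⟨C, hC⟩ := hsha (Z Q p) (fun σ a => act p (q σ) a) hcoef
  refine ⟨C, fun n R hR E hE hEf hEg hEc hEx hEt hEn => ?_⟩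
  have hRd := layer_fd hp.out hR
  have hRn := layer_normal hp.out hR
  have hRi : R.fixingSubgroup.index = p ^ n := by
    rw [← hR.1]
    exact (finrank_eq_fixingSubgroup_index Qb R).symm
  have hfK : (join N R).fixingSubgroup = N.fixingSubgroup ⊓ R.fixingSubgroup :=
    fixingSubgroup_sup
  have hfD : (join M R).fixingSubgroup = M.fixingSubgroup ⊓ R.fixingSubgroup :=
    fixingSubgroup_sup
  have hEK : E.fixingSubgroup ≤ (join N R).fixingSubgroup := fixingSubgroup_le hE
  have hKD : (join N R).fixingSubgroup ≤ (join M R).fixingSubgroup := by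
    rw [hfK, hfD]
    exact inf_le_inf_right _ hNM
  -- the section
  have hcop : Nat.Coprime ℓ (p ^ n) :=
    Nat.Coprime.pow_right n ((Nat.coprime_primes hℓ hp.out).2 hℓp)
  obtain ⟨e, he1, he2⟩ := Nat.chineseRemainder hcop 1 0
  have hpe : p ^ n ∣ e := (Nat.modEq_zero_iff_dvd).1 he2
  have hsec : ∀ x, ∃ g ∈ (join M R).fixingSubgroup, q g = x := by
    intro x
    obtain ⟨g, hg, hgx⟩ := hqs x
    refine ⟨g ^ e, ?_, ?_⟩
    · rw [hfD]
      refine ⟨pow_mem hg e, ?_⟩
      obtain ⟨i, rfl⟩ := hpe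
      rw [pow_mul, ← hRi]
      exact R.fixingSubgroup.pow_mem (R.fixingSubgroup.pow_index_mem g) i
    · have h2 : ∀ k : ℕ, q (g ^ k) = q g ^ k := by
        intro k
        induction k with
        | zero => rw [pow_zero, pow_zero, hq1]
        | succ k ih => rw [pow_succ, hq _ (pow_mem hg k) _ hg, ih, pow_succ]
      rw [h2, hgx]
      have h3 : x ^ ℓ = 1 := by
        rw [← hQ]
        exact pow_card_eq_one'
      have h4 : orderOf x ∣ ℓ := orderOf_dvd_of_pow_eq_one h3
      have h5 : x ^ e = x ^ 1 := (pow_eq_pow_iff_modEq).2 (he1.of_dvd h4)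
      rw [h5, pow_one]
  choose s hs hsq using hsec
  have hstab : ∀ σ ∈ (join M R).fixingSubgroup, ∀ x ∈ E, σ x ∈ E := fun σ hσ =>
    hEg σ (fixes_iff.2 hσ)
  have hEi : E.fixingSubgroup.index ≠ 0 := by
    have : FiniteDimensional ℚ E := hEf
    exact index_ne_zero' E
  have hEr : E.fixingSubgroup.relIndex (join N R).fixingSubgroup *
      (join N R).fixingSubgroup.index = E.fixingSubgroup.index := relIndex_mul_index hEK
  obtain ⟨S, hSc, hS, hSi⟩ := shapiro (p := p) (D := (join M R).fixingSubgroup)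
    (K := (join N R).fixingSubgroup) (E := E.fixingSubgroup) q
    (fun σ hσ τ hτ => by
      rw [hfD] at hσ hτ
      exact hq σ hσ.1 τ hτ.1)
    (fun σ hσ => by
      rw [hfD] at hσ
      rw [hfK, hqK σ hσ.1]
      exact ⟨fun h => ⟨h, hσ.2⟩, fun h => h.1⟩)
    s hs hsq hEK hKD
    (fixingSubgroup_conj (galOver_iff.1 hEg))
    (fun σ hσ τ hτ => by
      rw [← fixes_iff]
      intro z hz
      have h1 := hEc σ⁻¹ τ⁻¹ (fixes_iff.2 (inv_mem hσ)) (fixes_iff.2 (inv_mem hτ)) z hz
      have h2 : (σ * τ * σ⁻¹ * τ⁻¹) z = (σ * τ) (σ⁻¹ (τ⁻¹ z)) := rfl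
      rw [h2, h1]
      show (σ * τ * τ⁻¹ * σ⁻¹) z = z
      have h3 : σ * τ * τ⁻¹ * σ⁻¹ = 1 := by group
      rw [h3]
      rfl)
    (fun σ hσ => fixes_iff.1 (hEx σ (fixes_iff.2 hσ)))
    (fun σ hσ hc => by
      refine fixes_iff.1 (hEn σ (fixes_iff.2 hσ) fun τ hτ z hz => ?_)
      have hz' : σ (τ z) ∈ E := hstab σ (hKD hσ) _ (hstab τ (fixes_iff.1 hτ) z hz)
      have h1 := fixes_iff.2 (hc τ (fixes_iff.1 hτ)) _ hz'
      have h2 : (τ * σ * τ⁻¹ * σ⁻¹) (σ (τ z)) = (τ * σ * τ⁻¹ * σ⁻¹ * σ * τ) z := rfl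
      have h3 : τ * σ * τ⁻¹ * σ⁻¹ * σ * τ = τ * σ := by group
      rw [h2, h3] at h1
      exact h1.symm)
    (by
      intro h0
      rw [h0, zero_mul] at hEr
      exact hEi hEr.symm)
  -- the crossed homomorphisms
  let F : {f // f ∈ S} → Gal(Qb/ℚ) → Z Q p := fun f σ => ⟨f.1 σ, (hS f.1 f.2).2.1 σ⟩
  have hFinj : Function.Injective F := by
    intro f g h
    apply Subtype.ext
    funext σ
    exact congrArg Subtype.val (congrFun h σ)
  have hcard := hC n R hR (S.attach.image F) ?_ ?_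
  · rw [Finset.card_image_of_injective _ hFinj, Finset.card_attach, hSc] at hcard
    have h1 : deg E = E.fixingSubgroup.index := by
      have : FiniteDimensional ℚ E := hEf
      exact finrank_eq_fixingSubgroup_index Qb E
    have h2 : deg (join N R) = (join N R).fixingSubgroup.index := by
      have : FiniteDimensional ℚ N := hN
      have : FiniteDimensional ℚ (join N R) := finiteDimensional_sup N R
      exact finrank_eq_fixingSubgroup_index Qb (join N R)
    rw [h1, h2, ← hEr]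
    exact Nat.mul_le_mul_right _ hcard
  · intro f hf
    obtain ⟨f, -, rfl⟩ := Finset.mem_image.1 hf
    obtain ⟨h1, h2, h3⟩ := hS f.1 f.2
    have hF0 : ∀ σ, Fixes σ E → F f σ = 0 := by
      intro σ hσ
      apply Subtype.ext
      funext x
      exact h3 σ (fixes_iff.1 hσ) x
    refine ⟨?_, ⟨E, hEf, ?_, hF0⟩, ?_⟩
    · intro σ τ hσ hτ
      apply Subtype.ext
      funext x
      exact h1 σ (fixes_iff.1 hσ) τ (fixes_iff.1 hτ) x
    · exact (sup_le_sup_right hMN R).trans hE
    · intro w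
      refine ⟨0, fun σ hTσ hσ => ?_⟩
      have hσ' := fixes_iff.1 hσ
      rw [hfD] at hσ'
      have hσN : Fixes σ N := hloc w σ hTσ (fixes_iff.2 hσ'.1)
      have hσNR : Fixes σ (join N R) := by
        rw [fixes_iff, hfK]
        exact ⟨fixes_iff.1 hσN, hσ'.2⟩
      rw [hF0 σ (hEt w σ hTσ hσNR)]
      apply Subtype.ext
      funext x
      show (0 : ZMod p) = 0 - 0
      rw [sub_zero]
  · intro f hf g hg h
    obtain ⟨f, -, rfl⟩ := Finset.mem_image.1 hf
    obtain ⟨g, -, rfl⟩ := Finset.mem_image.1 hg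
    obtain ⟨a, ha⟩ := h
    have h1 : f.1 = g.1 := by
      refine hSi f.1 f.2 g.1 g.2 fun σ hσ x => ?_
      have h2 := ha σ (fixes_iff.2 (hKD hσ))
      have h3 : q σ = 1 := by
        rw [hfK] at hσ
        exact hqN σ hσ.1
      have h4 : F f σ - F g σ = act p (q σ) a - a := h2
      rw [h3, act_one, sub_self, sub_eq_zero] at h4
      exact congrFun (congrArg Subtype.val h4) x
    rw [Subtype.ext h1]

theorem t_U3 : S_step := by
  intro p hp T ℓ M N hℓ hℓp hN hMN hdeg hgal hloc hsha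
  have hNM : N.fixingSubgroup ≤ M.fixingSubgroup := fixingSubgroup_le hMN
  have hconj := fixingSubgroup_conj (galOver_iff.1 hgal)
  have hNd : FiniteDimensional ℚ N := hN
  have hNi := index_ne_zero' N
  have hi : N.fixingSubgroup.relIndex M.fixingSubgroup = ℓ := by
    have h1 : deg N = N.fixingSubgroup.index := finrank_eq_fixingSubgroup_index Qb N
    have h2 : deg M = M.fixingSubgroup.index := finrank_eq_fixingSubgroup_index Qb M
    rw [h1, h2, ← relIndex_mul_index hNM] at hdeg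
    have hMi : M.fixingSubgroup.index ≠ 0 := by
      intro h0
      rw [← relIndex_mul_index hNM, h0, mul_zero] at hNi
      exact hNi rfl
    exact Nat.eq_of_mul_eq_mul_right (Nat.pos_of_ne_zero hMi) hdeg
  have hnor : (N.fixingSubgroup.subgroupOf M.fixingSubgroup).Normal := ⟨fun x hx g => by
    rw [mem_subgroupOf] at hx ⊢
    exact hconj g g.2 x hx⟩
  have hfin : (N.fixingSubgroup.subgroupOf M.fixingSubgroup).FiniteIndex :=
    ⟨by
      show N.fixingSubgroup.relIndex M.fixingSubgroup ≠ 0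
      rw [hi]; exact hℓ.ne_zero⟩
  classical
  have hQf : Finite (M.fixingSubgroup ⧸ N.fixingSubgroup.subgroupOf M.fixingSubgroup) :=
    Subgroup.finite_quotient_of_finiteIndex
  have hQt : Fintype (M.fixingSubgroup ⧸ N.fixingSubgroup.subgroupOf M.fixingSubgroup) :=
    Fintype.ofFinite _
  refine step_core (T := T) hℓ hℓp hN hMN hloc
    (Q := M.fixingSubgroup ⧸ N.fixingSubgroup.subgroupOf M.fixingSubgroup) hi
    (fun σ => if h : σ ∈ M.fixingSubgroup then QuotientGroup.mk ⟨σ, h⟩ else 1) ?_ ?_ ?_ hsha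
  · intro σ hσ τ hτ
    rw [dif_pos hσ, dif_pos hτ, dif_pos (mul_mem hσ hτ)]
    rfl
  · intro σ hσ
    rw [dif_pos hσ, QuotientGroup.eq_one_iff, mem_subgroupOf]
  · intro x
    induction x using QuotientGroup.induction_on with
    | H a => exact ⟨a, a.2, dif_pos a.2⟩

end Pool.Agent.Run7.h642.UD
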