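import Mathlib

/-!
# Characters of a normal subgroup and crossed homomorphisms with values in functions of sum zero
-/

set_option autoImplicit false

namespace Pool.Agent.Run7.h642.UD

open Subgroup

theorem card_dual {p : ℕ} [Fact p.Prime] (V : Type) [AddCommGroup V] [Finite V]
    [Module (ZMod p) V] :
    Finite (Module.Dual (ZMod p) V) ∧ Nat.card (Module.Dual (ZMod p) V) = Nat.card V := by
  have h1 : Module.Finite (ZMod p) V := Module.Finite.of_finite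
  have h2 : Finite (Module.Dual (ZMod p) V) := Module.finite_of_finite (ZMod p)
  refine ⟨h2, ?_⟩
  rw [Module.natCard_eq_pow_finrank (K := ZMod p) (V := V),
    Module.natCard_eq_pow_finrank (K := ZMod p) (V := Module.Dual (ZMod p) V),
    Subspace.dual_finrank_eq]

theorem exists_chars {p : ℕ} [Fact p.Prime] (V : Type) [CommGroup V] [Finite V]
    (h : ∀ v : V, v ^ p = 1) : ∃ S : Finset (V → ZMod p), S.card = Nat.card V ∧
      ∀ χ ∈ S, ∀ v w, χ (v * w) = χ v + χ w := by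
  classical
  let iM : Module (ZMod p) (Additive V) := AddCommGroup.zmodModule (n := p)
    (fun v => congrArg Additive.ofMul (h (Additive.toMul v)))
  obtain ⟨hXf, hXc⟩ := card_dual (p := p) (Additive V)
  let F : (Additive V →ₗ[ZMod p] ZMod p) → V → ZMod p := fun χ v => χ (Additive.ofMul v)
  have hF : Function.Injective F := by
    intro χ χ' h
    apply LinearMap.ext
    intro v
    exact congrFun h (Additive.toMul v)
  have hr : (Set.range F).Finite := Set.finite_range F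
  refine ⟨hr.toFinset, ?_, ?_⟩
  · have h0 : Nat.card V = Nat.card (Additive V) := rfl
    rw [h0, ← hXc]
    refine Eq.trans ?_ (Nat.card_range_of_injective hF)
    rw [Nat.card_coe_set_eq, Set.ncard_eq_toFinset_card _ hr]
  · intro f hf v w
    obtain ⟨χ, rfl⟩ := hr.mem_toFinset.1 hf
    exact map_add χ (Additive.ofMul v) (Additive.ofMul w)

theorem core {p : ℕ} [hp : Fact p.Prime] {𝔾 : Type} [Group 𝔾] {D K E : Subgroup 𝔾} {Q : Type}
    [Group Q] [Fintype Q] (q : 𝔾 → Q) (hq : ∀ σ ∈ D, ∀ τ ∈ D, q (σ * τ) = q σ * q τ)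
    (hqK : ∀ σ ∈ D, (q σ = 1 ↔ σ ∈ K)) (s : Q → 𝔾) (hs : ∀ x, s x ∈ D) (hqs : ∀ x, q (s x) = x)
    (hEK : E ≤ K) (hKD : K ≤ D) (hEn : ∀ g ∈ D, ∀ x ∈ E, g * x * g⁻¹ ∈ E)
    (hexp : ∀ x ∈ K, x ^ p ∈ E)
    (hno : ∀ x ∈ K, (∀ τ ∈ D, τ * x * τ⁻¹ * x⁻¹ ∈ E) → x ∈ E)
    {V : Type} [CommGroup V] [Finite V] (π : 𝔾 → V) (hπm : ∀ g ∈ K, ∀ h ∈ K, π (g * h) = π g * π h)
    (hπi : ∀ g ∈ K, π g⁻¹ = (π g)⁻¹) (hπ1 : ∀ g ∈ K, (π g = 1 ↔ g ∈ E))
    (hπs : ∀ v : V, ∃ g ∈ K, π g = v)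
    (hlift : ∀ τ ∈ D, (∀ g ∈ K, τ * g * τ⁻¹ ∈ K) →
      ∃ φ : V →* V, ∀ g ∈ K, φ (π g) = π (τ * g * τ⁻¹)) :
    ∃ S : Finset (𝔾 → Q → ZMod p), S.card = Nat.card V ∧
      (∀ f ∈ S, (∀ σ ∈ D, ∀ τ ∈ D, ∀ x, f (σ * τ) x = f σ x + f τ (x * q σ)) ∧
        (∀ σ, ∑ x, f σ x = 0) ∧ ∀ σ ∈ E, ∀ x, f σ x = 0) ∧
      ∀ f ∈ S, ∀ g ∈ S, (∀ σ ∈ K, ∀ x, f σ x = g σ x) → f = g := by
  classical
  have hq1 : q 1 = 1 := (hqK 1 D.one_mem).2 K.one_mem
  have hqi : ∀ σ ∈ D, q σ⁻¹ = (q σ)⁻¹ := by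
    intro σ hσ
    have h1 := hq σ⁻¹ (D.inv_mem hσ) σ hσ
    rw [inv_mul_cancel, hq1] at h1
    exact (inv_eq_of_mul_eq_one_left h1.symm).symm
  -- the elements `c σ x`
  let c : 𝔾 → Q → 𝔾 := fun σ x => s x * σ * (s (x * q σ))⁻¹
  have hcK : ∀ σ ∈ D, ∀ x, c σ x ∈ K := by
    intro σ hσ x
    refine (hqK _ (D.mul_mem (D.mul_mem (hs _) hσ) (D.inv_mem (hs _)))).1 ?_
    rw [hq _ (D.mul_mem (hs _) hσ) _ (D.inv_mem (hs _)), hq _ (hs _) _ hσ, hqi _ (hs _), hqs, hqs,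
      mul_inv_cancel]
  have hcm : ∀ σ ∈ D, ∀ τ ∈ D, ∀ x, c (σ * τ) x = c σ x * c τ (x * q σ) := by
    intro σ hσ τ hτ x
    show s x * (σ * τ) * (s (x * q (σ * τ)))⁻¹ =
      s x * σ * (s (x * q σ))⁻¹ * (s (x * q σ) * τ * (s (x * q σ * q τ))⁻¹)
    rw [hq σ hσ τ hτ, ← mul_assoc x]
    group
  -- the product is trivial
  have hprod : ∀ σ ∈ D, ∏ x, π (c σ x) = 1 := by
    intro σ hσ
    obtain ⟨κ, hκ, hκw⟩ := hπs (∏ x, π (c σ x))
    rw [← hκw, hπ1 κ hκ]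
    refine hno κ hκ fun τ hτ => ?_
    -- conjugation by `τ`
    have hτK : ∀ g ∈ K, τ * g * τ⁻¹ ∈ K := by
      intro g hg
      refine (hqK _ (D.mul_mem (D.mul_mem hτ (hKD hg)) (D.inv_mem hτ))).1 ?_
      rw [hq _ (D.mul_mem hτ (hKD hg)) _ (D.inv_mem hτ), hq _ hτ _ (hKD hg), hqi _ hτ,
        (hqK g (hKD hg)).2 hg, mul_one, mul_inv_cancel]
    obtain ⟨φ, hφ⟩ := hlift τ hτ hτK
    let b : Q → 𝔾 := fun x => τ * s x * (s (q τ * x))⁻¹
    have hbK : ∀ x, b x ∈ K := by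
      intro x
      refine (hqK _ (D.mul_mem (D.mul_mem hτ (hs _)) (D.inv_mem (hs _)))).1 ?_
      rw [hq _ (D.mul_mem hτ (hs _)) _ (D.inv_mem (hs _)), hq _ hτ _ (hs _), hqi _ (hs _), hqs, hqs,
        mul_inv_cancel]
    have h1 : φ (∏ x, π (c σ x)) = ∏ x, π (c σ x) := by
      rw [map_prod]
      have h2 : ∀ x, φ (π (c σ x)) = π (b x) * π (c σ (q τ * x)) * (π (b (x * q σ)))⁻¹ := by
        intro x
        rw [hφ _ (hcK σ hσ x), ← hπi _ (hbK _), ← hπm _ (hbK _) _ (hcK σ hσ _),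
          ← hπm _ (K.mul_mem (hbK _) (hcK σ hσ _)) _ (K.inv_mem (hbK _))]
        congr 1
        show τ * (s x * σ * (s (x * q σ))⁻¹) * τ⁻¹ = τ * s x * (s (q τ * x))⁻¹ *
          (s (q τ * x) * σ * (s (q τ * x * q σ))⁻¹) * (τ * s (x * q σ) * (s (q τ * (x * q σ)))⁻¹)⁻¹
        rw [mul_assoc (q τ) x (q σ)]
        group
      rw [Finset.prod_congr rfl fun x _ => h2 x, Finset.prod_mul_distrib, Finset.prod_mul_distrib,
        Finset.prod_inv_distrib]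
      have h3 : ∏ x, π (c σ (q τ * x)) = ∏ x, π (c σ x) :=
        Equiv.prod_comp (Equiv.mulLeft (q τ)) (fun x => π (c σ x))
      have h4 : ∏ x, π (b (x * q σ)) = ∏ x, π (b x) :=
        Equiv.prod_comp (Equiv.mulRight (q σ)) (fun x => π (b x))
      rw [h3, h4, mul_comm (∏ x, π (b x)), mul_assoc, mul_inv_cancel, mul_one]
    rw [← hκw, hφ κ hκ] at h1
    rw [← hπ1 _ (K.mul_mem (hτK κ hκ) (K.inv_mem hκ)), hπm _ (hτK κ hκ) _ (K.inv_mem hκ), h1,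
      hπi κ hκ, mul_inv_cancel]
  -- characters
  have hVp : ∀ v : V, v ^ p = 1 := by
    intro v
    obtain ⟨g, hg, rfl⟩ := hπs v
    have h2 : ∀ k : ℕ, π (g ^ k) = π g ^ k := by
      intro k
      induction k with
      | zero => rw [pow_zero, pow_zero, hπ1 _ K.one_mem]; exact E.one_mem
      | succ k ih => rw [pow_succ, hπm _ (K.pow_mem hg k) _ hg, ih, pow_succ]
    rw [← h2, hπ1 _ (K.pow_mem hg p)]
    exact hexp g hg
  obtain ⟨X, hXc, hX⟩ := exists_chars (p := p) V hVp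
  have hX1 : ∀ χ ∈ X, χ 1 = 0 := by
    intro χ hχ
    have h1 := hX χ hχ 1 1
    rw [mul_one] at h1
    exact left_eq_add.1 h1
  have hXp : ∀ χ ∈ X, ∀ (t : Finset Q) (a : Q → V), χ (∏ x ∈ t, a x) = ∑ x ∈ t, χ (a x) := by
    intro χ hχ t a
    induction t using Finset.induction_on with
    | empty => rw [Finset.prod_empty, Finset.sum_empty, hX1 χ hχ]
    | insert x t hx ih => rw [Finset.prod_insert hx, Finset.sum_insert hx, hX χ hχ, ih]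
  let F : (V → ZMod p) → 𝔾 → Q → ZMod p := fun χ σ x => if σ ∈ D then χ (π (c σ x)) else 0
  have hF : ∀ (χ : V → ZMod p) (σ : 𝔾), σ ∈ D → ∀ x, F χ σ x = χ (π (c σ x)) :=
    fun χ σ hσ x => if_pos hσ
  have hinj : ∀ χ χ' : V → ZMod p, (∀ σ ∈ K, ∀ x, F χ σ x = F χ' σ x) → χ = χ' := by
    intro χ χ' h
    funext v
    obtain ⟨g, hg, rfl⟩ := hπs v
    have h1 := h g hg 1
    rw [hF χ g (hKD hg), hF χ' g (hKD hg)] at h1
    have h2 : c g 1 = s 1 * g * (s 1)⁻¹ := by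
      show s 1 * g * (s (1 * q g))⁻¹ = _
      rw [(hqK g (hKD hg)).2 hg, mul_one]
    have h3 : s 1 ∈ K := (hqK _ (hs 1)).1 (hqs 1)
    have h4 : π (c g 1) = π g := by
      rw [h2, hπm _ (K.mul_mem h3 hg) _ (K.inv_mem h3), hπm _ h3 _ hg, hπi _ h3,
        mul_comm (π (s 1)), mul_assoc, mul_inv_cancel, mul_one]
    rw [h4] at h1
    exact h1
  have hFinj : Function.Injective F := fun χ χ' h => hinj χ χ' fun σ _ x => by rw [h]
  refine ⟨X.image F, ?_, ?_, ?_⟩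
  · rw [Finset.card_image_of_injective _ hFinj, hXc]
  · intro f hf
    obtain ⟨χ, hχ, rfl⟩ := Finset.mem_image.1 hf
    refine ⟨?_, ?_, ?_⟩
    · intro σ hσ τ hτ x
      rw [hF χ _ (D.mul_mem hσ hτ), hF χ _ hσ, hF χ _ hτ, hcm σ hσ τ hτ,
        hπm _ (hcK σ hσ x) _ (hcK τ hτ _), hX χ hχ]
    · intro σ
      by_cases hσ : σ ∈ D
      · rw [Finset.sum_congr rfl fun x _ => hF χ σ hσ x, ← hXp χ hχ, hprod σ hσ, hX1 χ hχ]
      · exact Finset.sum_eq_zero fun x _ => if_neg hσ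
    · intro σ hσ x
      have h1 : q σ = 1 := (hqK σ (hKD (hEK hσ))).2 (hEK hσ)
      have h2 : c σ x = s x * σ * (s x)⁻¹ := by
        show s x * σ * (s (x * q σ))⁻¹ = _
        rw [h1, mul_one]
      rw [hF χ σ (hKD (hEK hσ)), (hπ1 _ (hcK σ (hKD (hEK hσ)) x)).2 (by
        rw [h2]; exact hEn _ (hs x) _ hσ), hX1 χ hχ]
  · intro f hf g hg h
    obtain ⟨χ, -, rfl⟩ := Finset.mem_image.1 hf
    obtain ⟨χ', -, rfl⟩ := Finset.mem_image.1 hg
    rw [hinj χ χ' h]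

theorem shapiro {p : ℕ} [hp : Fact p.Prime] {𝔾 : Type} [Group 𝔾] {D K E : Subgroup 𝔾} {Q : Type}
    [Group Q] [Fintype Q] (q : 𝔾 → Q) (hq : ∀ σ ∈ D, ∀ τ ∈ D, q (σ * τ) = q σ * q τ)
    (hqK : ∀ σ ∈ D, (q σ = 1 ↔ σ ∈ K)) (s : Q → 𝔾) (hs : ∀ x, s x ∈ D) (hqs : ∀ x, q (s x) = x)
    (hEK : E ≤ K) (hKD : K ≤ D) (hEn : ∀ g ∈ D, ∀ x ∈ E, g * x * g⁻¹ ∈ E)
    (hcomm : ∀ x ∈ K, ∀ y ∈ K, x * y * x⁻¹ * y⁻¹ ∈ E) (hexp : ∀ x ∈ K, x ^ p ∈ E)
    (hno : ∀ x ∈ K, (∀ τ ∈ D, τ * x * τ⁻¹ * x⁻¹ ∈ E) → x ∈ E) (hEf : E.relIndex K ≠ 0) :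
    ∃ S : Finset (𝔾 → Q → ZMod p), S.card = E.relIndex K ∧
      (∀ f ∈ S, (∀ σ ∈ D, ∀ τ ∈ D, ∀ x, f (σ * τ) x = f σ x + f τ (x * q σ)) ∧
        (∀ σ, ∑ x, f σ x = 0) ∧ ∀ σ ∈ E, ∀ x, f σ x = 0) ∧
      ∀ f ∈ S, ∀ g ∈ S, (∀ σ ∈ K, ∀ x, f σ x = g σ x) → f = g := by
  classical
  have hq1 : q 1 = 1 := (hqK 1 D.one_mem).2 K.one_mem
  have hqi : ∀ σ ∈ D, q σ⁻¹ = (q σ)⁻¹ := by
    intro σ hσ
    have h1 := hq σ⁻¹ (D.inv_mem hσ) σ hσ
    rw [inv_mul_cancel, hq1] at h1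
    exact (inv_eq_of_mul_eq_one_left h1.symm).symm
  -- the quotient
  have hnor : (E.subgroupOf K).Normal := ⟨fun x hx g => by
    rw [mem_subgroupOf] at hx ⊢
    exact hEn g (hKD g.2) x hx⟩
  let V := K ⧸ E.subgroupOf K
  let iV : CommGroup V := { (inferInstance : Group V) with
    mul_comm := by
      intro a b
      induction a using QuotientGroup.induction_on with
      | H a =>
        induction b using QuotientGroup.induction_on with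
        | H b =>
          rw [← QuotientGroup.mk_mul, ← QuotientGroup.mk_mul, QuotientGroup.eq, mem_subgroupOf]
          have h1 := hcomm (b : 𝔾)⁻¹ (K.inv_mem b.2) (a : 𝔾)⁻¹ (K.inv_mem a.2)
          have h2 : (((a * b)⁻¹ * (b * a) : K) : 𝔾) =
              (b : 𝔾)⁻¹ * (a : 𝔾)⁻¹ * ((b : 𝔾)⁻¹)⁻¹ * ((a : 𝔾)⁻¹)⁻¹ := by
            push_cast
            group
          rw [h2]
          exact h1 }
  have hVf : Finite V := by
    have : (E.subgroupOf K).FiniteIndex := ⟨hEf⟩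
    exact Subgroup.finite_quotient_of_finiteIndex
  have hVc : Nat.card V = E.relIndex K := rfl
  let π : 𝔾 → V := fun g => if h : g ∈ K then QuotientGroup.mk ⟨g, h⟩ else 1
  have hπ : ∀ (g : 𝔾) (h : g ∈ K), π g = (QuotientGroup.mk ⟨g, h⟩ : V) := fun g h => dif_pos h
  have hπm : ∀ g ∈ K, ∀ h ∈ K, π (g * h) = π g * π h := by
    intro g hg h hh
    rw [hπ g hg, hπ h hh, hπ _ (K.mul_mem hg hh)]
    rfl
  have hπi : ∀ g ∈ K, π g⁻¹ = (π g)⁻¹ := by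
    intro g hg
    rw [hπ g hg, hπ _ (K.inv_mem hg)]
    rfl
  have hπ1 : ∀ g ∈ K, (π g = 1 ↔ g ∈ E) := by
    intro g hg
    rw [hπ g hg, QuotientGroup.eq_one_iff, mem_subgroupOf]
  have hπs : ∀ v : V, ∃ g ∈ K, π g = v := by
    intro v
    induction v using QuotientGroup.induction_on with
    | H a => exact ⟨a, a.2, hπ _ a.2⟩
  exact core q hq hqK s hs hqs hEK hKD hEn hexp hno π hπm hπi hπ1 hπs fun τ hτ hτK => by
    let φ0 : K →* V :=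
      { toFun := fun g => π (τ * g * τ⁻¹)
        map_one' := by
          rw [hπ1 _ (hτK _ (1 : K).2)]
          simp
        map_mul' := by
          intro a b
          rw [← hπm _ (hτK _ a.2) _ (hτK _ b.2)]
          congr 1
          push_cast
          group }
    have hφ0 : ∀ x ∈ E.subgroupOf K, φ0 x = 1 := by
      intro x hx
      show π (τ * x * τ⁻¹) = 1
      rw [hπ1 _ (hτK _ x.2)]
      exact hEn τ hτ _ (mem_subgroupOf.1 hx)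
    let φ : V →* V := QuotientGroup.lift (E.subgroupOf K) φ0 hφ0
    have hφ : ∀ g ∈ K, φ (π g) = π (τ * g * τ⁻¹) := by
      intro g hg
      rw [hπ g hg]
      rfl
    exact ⟨φ, hφ⟩

end Pool.Agent.Run7.h642.UD
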